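import Mathlib

-- part MP_0f46a6_co.Ultra
section

/-!
Idempotent ultrafilter on the free monoid of real lists and an absorbing ultrafilter on frames.
-/

set_option autoImplicit false

namespace Pool.Agent.MP_0f46a6_co

open Filter

theorem exists_idem {F ι : Type} (pt : ι → F → List ℝ) (shift : List ℝ → F → F)
    (hpt : ∀ x y ε, pt x (shift y ε) = y ++ pt x ε)
    (hR : ∀ r : ℕ, ∀ f : List ℝ → Fin r, ∃ ε, ∃ k, ∀ x, f (pt x ε) = k) :
    ∃ e : Ultrafilter (List ℝ),
      (∀ B ∈ e, ∃ ε, ∀ x, pt x ε ∈ B) ∧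
      ∀ P : List ℝ → Prop, (∀ᶠ y in e, ∀ᶠ y' in e, P (y ++ y')) ↔ ∀ᶠ z in e, P z := by
  classical
  letI sg : Semigroup (List ℝ) := { mul := fun a b => a ++ b, mul_assoc := List.append_assoc }
  letI : Semigroup (Ultrafilter (List ℝ)) := Ultrafilter.semigroup
  set S : Set (Ultrafilter (List ℝ)) := {p | ∀ B ∈ p, ∃ ε, ∀ x, pt x ε ∈ B} with hS
  have hne : S.Nonempty := by
    obtain ⟨p, hp⟩ := Ultrafilter.exists_ultrafilter_of_finite_inter_nonempty
      {C : Set (List ℝ) | ¬ ∃ ε, ∀ x, pt x ε ∈ Cᶜ} (by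
        intro T hT
        by_contra hcon
        have hall : ∀ y : List ℝ, ∃ C : T, y ∉ (C : Set (List ℝ)) := by
          intro y
          by_contra h2
          push Not at h2
          exact hcon ⟨y, fun C hC => h2 ⟨C, hC⟩⟩
        choose g hg using hall
        obtain ⟨ε, k, hk⟩ := hR _ (fun y => Fintype.equivFin T (g y))
        have h3 := hT ((Fintype.equivFin T).symm k).2
        apply h3
        refine ⟨ε, fun x => ?_⟩
        have h4 : g (pt x ε) = (Fintype.equivFin T).symm k := by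
          rw [← hk x]; simp
        rw [← h4]
        exact hg _)
    refine ⟨p, fun B hB => ?_⟩
    by_contra hcon
    have h5 : Bᶜ ∈ p := hp (by simpa using hcon)
    exact (Ultrafilter.compl_mem_iff_notMem.mp h5) hB
  have hcl : IsClosed S := by
    have : S = ⋂ B ∈ {B : Set (List ℝ) | ¬ ∃ ε, ∀ x, pt x ε ∈ B}, {p | Bᶜ ∈ p} := by
      ext p
      simp only [hS, Set.mem_setOf_eq, Set.mem_iInter]
      constructor
      · intro h B hB
        exact Ultrafilter.compl_mem_iff_notMem.mpr fun h' => hB (h B h')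
      · intro h B hB
        by_contra hcon
        exact (Ultrafilter.compl_mem_iff_notMem.mp (h B hcon)) hB
    rw [this]
    exact isClosed_biInter fun B _ => ultrafilter_isClosed_basic _
  obtain ⟨e, he, hee⟩ := exists_idempotent_in_compact_subsemigroup
    (M := Ultrafilter (List ℝ)) (fun V => Ultrafilter.continuous_mul_left V) S hne hcl.isCompact (by
      intro p _ q hq B hB
      have h1 : ∀ᶠ y in p, ∀ᶠ y' in q, y ++ y' ∈ B :=
        (Ultrafilter.eventually_mul p q (fun m => m ∈ B)).mp hB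
      obtain ⟨y, hy⟩ := h1.exists
      obtain ⟨ε, hε⟩ := hq _ hy
      exact ⟨shift y ε, fun x => by rw [hpt]; exact hε x⟩)
  refine ⟨e, he, fun P => ?_⟩
  have h := Ultrafilter.eventually_mul e e P
  rw [show (@HMul.hMul _ _ _ (@instHMul _ Ultrafilter.mul) e e) = e from hee] at h
  exact h.symm

theorem exists_ultra {F ι : Type} (pt : ι → F → List ℝ) (shift : List ℝ → F → F)
    (hpt : ∀ x y ε, pt x (shift y ε) = y ++ pt x ε)
    (hsh : ∀ y y' ε, shift y (shift y' ε) = shift (y ++ y') ε)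
    (hR : ∀ r : ℕ, ∀ f : List ℝ → Fin r, ∃ ε, ∃ k, ∀ x, f (pt x ε) = k) :
    ∃ U : Ultrafilter F, ∀ (x : ι) (Φ : F → Prop),
      (∀ᶠ ε in U, ∀ᶠ ε' in U, Φ (shift (pt x ε) ε')) ↔ ∀ᶠ ε' in U, Φ ε' := by
  obtain ⟨e, he, hee⟩ := exists_idem pt shift hpt hR
  let G : Filter F :=
    { sets := {A | ∃ B ∈ e, ∀ ε, (∀ x, pt x ε ∈ B) → ε ∈ A}
      univ_sets := ⟨Set.univ, univ_mem, fun _ _ => trivial⟩
      sets_of_superset := by
        rintro A A' ⟨B, hB, h⟩ hAA
        exact ⟨B, hB, fun ε hε => hAA (h ε hε)⟩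
      inter_sets := by
        rintro A A' ⟨B, hB, h⟩ ⟨B', hB', h'⟩
        exact ⟨B ∩ B', inter_mem hB hB',
          fun ε hε => ⟨h ε fun x => (hε x).1, h' ε fun x => (hε x).2⟩⟩ }
  haveI : G.NeBot := by
    refine ⟨fun h => ?_⟩
    have h0 : (∅ : Set F) ∈ G := by rw [h]; exact mem_bot
    obtain ⟨B, hB, h1⟩ := h0
    obtain ⟨ε, hε⟩ := he B hB
    exact h1 ε hε
  let U0 : Ultrafilter F := Ultrafilter.of G
  have hU0 : ∀ (x : ι) (P : List ℝ → Prop), (∀ᶠ y in e, P y) → ∀ᶠ ε in U0, P (pt x ε) := by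
    intro x P hP
    exact Ultrafilter.of_le G ⟨_, hP, fun ε hε => hε x⟩
  have hU0' : ∀ (x : ι) (P : List ℝ → Prop), (∀ᶠ ε in U0, P (pt x ε)) ↔ ∀ᶠ y in e, P y := by
    intro x P
    refine ⟨fun h => ?_, hU0 x P⟩
    by_contra hcon
    have h2 := hU0 x (fun y => ¬ P y) (Ultrafilter.eventually_not.mpr hcon)
    exact (Ultrafilter.eventually_not.mp h2) h
  let U : Ultrafilter F := e.bind fun y => U0.map (shift y)
  have hU : ∀ Φ : F → Prop, (∀ᶠ ε in U, Φ ε) ↔ ∀ᶠ y in e, ∀ᶠ ε in U0, Φ (shift y ε) :=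
    fun Φ => Iff.rfl
  have hmarg : ∀ (x : ι) (P : List ℝ → Prop), (∀ᶠ ε in U, P (pt x ε)) ↔ ∀ᶠ y in e, P y := by
    intro x P
    rw [hU, ← hee P]
    simp only [hpt]
    refine eventually_congr (Eventually.of_forall fun y => ?_)
    exact hU0' x (fun y' => P (y ++ y'))
  refine ⟨U, fun x Φ => ?_⟩
  rw [hmarg x (fun y => ∀ᶠ ε' in U, Φ (shift y ε'))]
  simp only [hU, hsh]
  exact hee (fun z => ∀ᶠ ε in U0, Φ (shift z ε))

end Pool.Agent.MP_0f46a6_co

end

-- part MP_0f46a6_co.Words
section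

/-!
Words of letters evaluated on generic lists of frames.
-/

set_option autoImplicit false

namespace Pool.Agent.MP_0f46a6_co

open Filter

/-- squared Euclidean distance of two real lists -/
def sqd : List ℝ → List ℝ → ℝ
  | a :: u, b :: v => (a - b) ^ 2 + sqd u v
  | _, _ => 0

theorem sqd_self : ∀ u : List ℝ, sqd u u = 0
  | [] => rfl
  | a :: u => by simp [sqd, sqd_self u]

theorem sqd_append : ∀ (u v u' v' : List ℝ), u.length = v.length →
    sqd (u ++ u') (v ++ v') = sqd u v + sqd u' v'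
  | [], [], u', v', _ => by simp [sqd]
  | a :: u, b :: v, u', v', h => by
      have := sqd_append u v u' v' (by simpa using h)
      simp only [List.cons_append, sqd, this]; ring
  | [], _ :: _, _, _, h => by simp at h
  | _ :: _, [], _, _, h => by simp at h

/-- letters: shift-equivariant maps from frames to lists -/
def Letter {F : Type} (shift : List ℝ → F → F) : Type :=
  {ℓ : F → List ℝ // ∀ y ε, ℓ (shift y ε) = y ++ ℓ ε}

variable {F : Type} {shift : List ℝ → F → F}

/-- evaluation of a word on a list of frames -/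
def ev : List (Letter shift) → List F → List ℝ
  | ℓ :: w, ε :: l => ℓ.1 ε ++ ev w l
  | _, _ => []

theorem ev_nil_right (w : List (Letter shift)) : ev w [] = [] := by
  cases w <;> rfl

theorem ev_nil_left (l : List F) : ev ([] : List (Letter shift)) l = [] := by
  cases l <;> rfl

theorem ev_append : ∀ (u v : List (Letter shift)) (l : List F),
    ev (u ++ v) l = ev u l ++ ev v (l.drop u.length)
  | [], v, l => by simp [ev_nil_left]
  | a :: u, v, [] => by simp [ev_nil_right]
  | a :: u, v, ε :: l => by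
      simp only [List.cons_append, ev, ev_append u v l, List.length_cons, List.drop_succ_cons,
        List.append_assoc]

/-- tensor powers of an ultrafilter -/
noncomputable def pw (U : Ultrafilter F) : ℕ → Ultrafilter (List F)
  | 0 => pure []
  | n + 1 => U.bind fun ε => (pw U n).map (fun l => ε :: l)

theorem pw_succ (U : Ultrafilter F) (n : ℕ) (P : List F → Prop) :
    (∀ᶠ l in pw U (n + 1), P l) ↔ ∀ᶠ ε in U, ∀ᶠ l in pw U n, P (ε :: l) := Iff.rfl

theorem pw_length (U : Ultrafilter F) : ∀ n : ℕ, ∀ᶠ l : List F in pw U n, l.length = n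
  | 0 => by simp [pw]
  | n + 1 => by
      rw [pw_succ]
      refine Eventually.of_forall fun ε => ?_
      filter_upwards [pw_length U n] with l hl
      simp [hl]

theorem del_aux {ι : Type} (P : ι → Letter shift) (U : Ultrafilter F)
    (hU : ∀ (x : ι) (Φ : F → Prop),
      (∀ᶠ ε in U, ∀ᶠ ε' in U, Φ (shift ((P x).1 ε) ε')) ↔ ∀ᶠ ε' in U, Φ ε')
    (c : List ℝ → ℝ) (x : ι) (ℓ ℓ' : Letter shift) (u2 v2 : List (Letter shift)) (n : ℕ) :
    ∀ (u1 v1 : List (Letter shift)), u1.length = v1.length → ∀ s t : List ℝ,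
      (∀ᶠ l in pw U (n + 2 + u1.length),
        c (s ++ ev (u1 ++ P x :: ℓ :: u2) l) = c (t ++ ev (v1 ++ P x :: ℓ' :: v2) l)) ↔
      (∀ᶠ l in pw U (n + 1 + u1.length),
        c (s ++ ev (u1 ++ ℓ :: u2) l) = c (t ++ ev (v1 ++ ℓ' :: v2) l))
  | [], [], _, s, t => by
      simp only [List.length_nil, Nat.add_zero, List.nil_append]
      rw [pw_succ, pw_succ]
      simp only [pw_succ, ev]
      rw [← hU x (fun ε' => ∀ᶠ l in pw U n, c (s ++ (ℓ.1 ε' ++ ev u2 l)) =
        c (t ++ (ℓ'.1 ε' ++ ev v2 l)))]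
      simp only [ℓ.2, ℓ'.2, List.append_assoc]
  | a :: u1, b :: v1, h, s, t => by
      have h' : u1.length = v1.length := by simpa using h
      simp only [List.length_cons, ← Nat.add_assoc, List.cons_append]
      rw [pw_succ, pw_succ]
      refine eventually_congr (Eventually.of_forall fun ε => ?_)
      simp only [ev, ← List.append_assoc]
      exact del_aux P U hU c x ℓ ℓ' u2 v2 n u1 v1 h' _ _
  | [], _ :: _, h, _, _ => by simp at h
  | _ :: _, [], h, _, _ => by simp at h

/-- the limit relation: generically equal colour -/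
def Rel (U : Ultrafilter F) (c : List ℝ → ℝ) (u v : List (Letter shift)) : Prop :=
  u.length = v.length ∧ ∀ᶠ l in pw U u.length, c (ev u l) = c (ev v l)

theorem Rel.refl (U : Ultrafilter F) (c : List ℝ → ℝ) (u : List (Letter shift)) : Rel U c u u :=
  ⟨rfl, Eventually.of_forall fun _ => rfl⟩

theorem Rel.symm {U : Ultrafilter F} {c : List ℝ → ℝ} {u v : List (Letter shift)}
    (h : Rel U c u v) : Rel U c v u := by
  refine ⟨h.1.symm, ?_⟩
  rw [← h.1]
  filter_upwards [h.2] with l hl using hl.symm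

theorem Rel.trans {U : Ultrafilter F} {c : List ℝ → ℝ} {u v w : List (Letter shift)}
    (h : Rel U c u v) (h' : Rel U c v w) : Rel U c u w := by
  refine ⟨h.1.trans h'.1, ?_⟩
  have h2 := h'.2
  rw [← h.1] at h2
  filter_upwards [h.2, h2] with l hl hl' using hl.trans hl'

theorem rel_del {ι : Type} (P : ι → Letter shift) (U : Ultrafilter F)
    (hU : ∀ (x : ι) (Φ : F → Prop),
      (∀ᶠ ε in U, ∀ᶠ ε' in U, Φ (shift ((P x).1 ε) ε')) ↔ ∀ᶠ ε' in U, Φ ε')
    (c : List ℝ → ℝ) (x : ι) (u1 v1 u2 v2 : List (Letter shift))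
    (h1 : u1.length = v1.length) (h2 : u2.length = v2.length) (h3 : u2 ≠ []) :
    Rel U c (u1 ++ P x :: u2) (v1 ++ P x :: v2) ↔ Rel U c (u1 ++ u2) (v1 ++ v2) := by
  obtain ⟨ℓ, u2, rfl⟩ := List.exists_cons_of_ne_nil h3
  have h4 : v2 ≠ [] := by
    intro h; rw [h] at h2; simp at h2
  obtain ⟨ℓ', v2, rfl⟩ := List.exists_cons_of_ne_nil h4
  have key := del_aux P U hU c x ℓ ℓ' u2 v2 u2.length u1 v1 h1 [] []
  simp only [List.nil_append] at key
  have e1 : (u1 ++ P x :: ℓ :: u2).length = u2.length + 2 + u1.length := by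
    simp; omega
  have e2 : (u1 ++ ℓ :: u2).length = u2.length + 1 + u1.length := by
    simp; omega
  unfold Rel
  rw [e1, e2, key]
  simp only [List.length_cons, List.length_append] at h2 ⊢
  constructor
  · rintro ⟨_, h⟩; exact ⟨by omega, h⟩
  · rintro ⟨_, h⟩; exact ⟨by omega, h⟩

/-- a column of letters which is a similarity of squared ratio `r` on every frame -/
def Sim {ι : Type} (D : ι → ι → ℝ) (col : ι → Letter shift) (r : ℝ) : Prop :=
  ∀ ε x y, ((col x).1 ε).length = ((col y).1 ε).length ∧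
    sqd ((col x).1 ε) ((col y).1 ε) = r * D x y

/-- a family of words which is a similarity of squared ratio `r` on every long list of frames -/
def SimW {ι : Type} (D : ι → ι → ℝ) (Φ : ι → List (Letter shift)) (r : ℝ) : Prop :=
  (∀ x y, (Φ x).length = (Φ y).length) ∧
  ∀ (l : List F) x y, (Φ x).length ≤ l.length →
    (ev (Φ x) l).length = (ev (Φ y) l).length ∧ sqd (ev (Φ x) l) (ev (Φ y) l) = r * D x y

theorem SimW.const {ι : Type} (D : ι → ι → ℝ) (w : List (Letter shift)) :
    SimW D (fun _ => w) 0 :=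
  ⟨fun _ _ => rfl, fun l x y _ => ⟨rfl, by simp [sqd_self]⟩⟩

theorem SimW.single {ι : Type} {D : ι → ι → ℝ} {col : ι → Letter shift} {r : ℝ}
    (h : Sim D col r) : SimW D (fun x => [col x]) r := by
  refine ⟨fun _ _ => rfl, fun l x y hl => ?_⟩
  cases l with
  | nil => simp at hl
  | cons ε l => simpa [ev, ev_nil_left] using h ε x y

theorem SimW.append {ι : Type} {D : ι → ι → ℝ} {Φ Ψ : ι → List (Letter shift)} {r s : ℝ}
    (h : SimW D Φ r) (h' : SimW D Ψ s) : SimW D (fun x => Φ x ++ Ψ x) (r + s) := by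
  refine ⟨fun x y => by simp [h.1 x y, h'.1 x y], fun l x y hl => ?_⟩
  simp only [List.length_append] at hl
  obtain ⟨a1, a2⟩ := h.2 l x y (by omega)
  obtain ⟨b1, b2⟩ := h'.2 (l.drop (Φ x).length) x y (by simp; omega)
  simp only [ev_append, ← h.1 x y]
  refine ⟨by simp [a1, b1], ?_⟩
  rw [sqd_append _ _ _ _ a1, a2, b2]; ring

theorem SimW.congr {ι : Type} {D : ι → ι → ℝ} {Φ : ι → List (Letter shift)} {r s : ℝ}
    (h : SimW D Φ r) (e : r = s) : SimW D Φ s := e ▸ h

theorem SimW.replicate {ι : Type} {D : ι → ι → ℝ} {col : ι → Letter shift} {r : ℝ}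
    (h : Sim D col r) : ∀ n : ℕ, SimW D (fun x => List.replicate n (col x)) (n * r)
  | 0 => by simpa using SimW.const D []
  | n + 1 => by
      have := (SimW.single h).append (SimW.replicate h n)
      refine SimW.congr (by simpa [List.replicate_succ] using this) ?_
      push_cast; ring

theorem SimW.flatMap {ι κ : Type} {D : ι → ι → ℝ} (Φ : κ → ι → List (Letter shift)) (r : κ → ℝ)
    (h : ∀ k, SimW D (Φ k) (r k)) :
    ∀ L : List κ, SimW D (fun x => L.flatMap fun k => Φ k x) (L.map r).sum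
  | [] => by simpa using SimW.const D []
  | k :: L => by
      have := (h k).append (SimW.flatMap Φ r h L)
      simpa using this

/-! Abstract consequences of the deletion rule. -/

section Abstract

variable {ι : Type} (ρ : List ι → List ι → Prop)

theorem del_block
    (hdel : ∀ (u1 v1 u2 v2 : List ι) (x : ι), u1.length = v1.length → u2.length = v2.length →
      (ρ (u1 ++ x :: u2) (v1 ++ x :: v2) ↔ ρ (u1 ++ u2) (v1 ++ v2))) :
    ∀ (w u1 v1 u2 v2 : List ι), u1.length = v1.length → u2.length = v2.length →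
      (ρ (u1 ++ (w ++ u2)) (v1 ++ (w ++ v2)) ↔ ρ (u1 ++ u2) (v1 ++ v2))
  | [], u1, v1, u2, v2, _, _ => by simp
  | x :: w, u1, v1, u2, v2, h1, h2 => by
      simp only [List.cons_append]
      rw [hdel u1 v1 _ _ x h1 (by simp [h2])]
      exact del_block hdel w u1 v1 u2 v2 h1 h2

theorem two_runs
    (hdel : ∀ (u1 v1 u2 v2 : List ι) (x : ι), u1.length = v1.length → u2.length = v2.length →
      (ρ (u1 ++ x :: u2) (v1 ++ x :: v2) ↔ ρ (u1 ++ u2) (v1 ++ v2)))
    (p q : ι) (A B : List ι) (h δ k : ℕ)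
    (H : ρ (A ++ ((List.replicate h q ++ List.replicate (δ + k) p ++ List.replicate h q ++
              List.replicate (δ + k) p) ++ B))
           (A ++ ((List.replicate (h + δ) q ++ List.replicate k p ++ List.replicate (h + δ) q ++
              List.replicate k p) ++ B))) :
    ρ (List.replicate (2 * δ) p) (List.replicate (2 * δ) q) := by
  have D := del_block ρ hdel
  have e1 := D (A ++ List.replicate h q) [] []
    (List.replicate δ p ++ ((List.replicate k p ++ List.replicate h q) ++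
      (List.replicate δ p ++ (List.replicate k p ++ B))))
    (List.replicate δ q ++ ((List.replicate k p ++ List.replicate h q) ++
      (List.replicate δ q ++ (List.replicate k p ++ B)))) rfl (by simp)
  have e2 := D (List.replicate k p ++ List.replicate h q) (List.replicate δ p)
    (List.replicate δ q) (List.replicate δ p ++ (List.replicate k p ++ B))
    (List.replicate δ q ++ (List.replicate k p ++ B)) (by simp) (by simp)
  have e3 := D (List.replicate k p ++ B) (List.replicate δ p ++ List.replicate δ p)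
    (List.replicate δ q ++ List.replicate δ q) [] [] (by simp) rfl
  simp only [List.nil_append, List.append_nil, List.append_assoc] at e1 e2 e3
  simp only [List.replicate_add, List.append_assoc] at H
  rw [two_mul, List.replicate_add, List.replicate_add]
  exact e3.mp (e2.mp (e1.mp H))

theorem chain_runs (hrefl : ∀ u, ρ u u) (htrans : ∀ u v w, ρ u v → ρ v w → ρ u w)
    (hdel : ∀ (u1 v1 u2 v2 : List ι) (x : ι), u1.length = v1.length → u2.length = v2.length →
      (ρ (u1 ++ x :: u2) (v1 ++ x :: v2) ↔ ρ (u1 ++ u2) (v1 ++ v2)))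
    (p q : ι) (j : ℕ) (H : ρ (List.replicate j p) (List.replicate j q)) :
    ∀ t : ℕ, ρ (List.replicate (j * t) p) (List.replicate (j * t) q)
  | 0 => by simpa using hrefl []
  | t + 1 => by
      have ih := chain_runs hrefl htrans hdel p q j H t
      have D := del_block ρ hdel
      have e1 := (D (List.replicate j p) (List.replicate (j * t) p) (List.replicate (j * t) q)
        [] [] (by simp) rfl).mpr (by simpa using ih)
      have e2 := (D (List.replicate (j * t) q) [] [] (List.replicate j p)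
        (List.replicate j q) rfl (by simp)).mpr (by simpa using H)
      simp only [List.nil_append, List.append_nil] at e1 e2
      rw [Nat.mul_succ, List.replicate_add, List.replicate_add]
      exact htrans _ _ _ e1 e2

end Abstract

end Pool.Agent.MP_0f46a6_co

end

-- part MP_0f46a6_co.Core
section

/-!
The exchange argument.
-/

set_option autoImplicit false

namespace Pool.Agent.MP_0f46a6_co

open Filter

theorem box_card {ι : Type} [Fintype ι] [DecidableEq ι] (K : ℕ) (q : ι)
    (S : Finset (ι → Fin (K + 1)))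
    (hS : ∀ h ∈ S, ∀ h' ∈ S, (∀ q', q' ≠ q → h q' = h' q') → h = h') :
    S.card * (K + 1) ≤ Fintype.card (ι → Fin (K + 1)) := by
  classical
  have : (S ×ˢ (Finset.univ : Finset (Fin (K + 1)))).card ≤
      (Finset.univ : Finset (ι → Fin (K + 1))).card := by
    refine Finset.card_le_card_of_injOn (fun z => Function.update z.1 q z.2)
      (fun _ _ => by simp) ?_
    rintro ⟨h, i⟩ hh ⟨h', i'⟩ hh' e
    simp only [Finset.coe_product, Set.mem_prod, Finset.mem_coe] at hh hh'
    have e1 : i = i' := by simpa using congrFun e q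
    have e2 : h = h' := hS h hh.1 h' hh'.1 fun q' hq' => by
      simpa [Function.update_of_ne hq'] using congrFun e q'
    rw [e1, e2]
  simpa using this

theorem density {ι κ : Type} [Fintype ι] [DecidableEq ι] [Fintype κ] [DecidableEq κ] (K : ℕ)
    (hK : Fintype.card κ ≤ K) (ρ : (κ → ι → Fin (K + 1)) → κ) :
    ∃ (π : κ) (o : κ → ι → Fin (K + 1)), ∀ q : ι, ∃ h h' : ι → Fin (K + 1),
      (∀ q', q' ≠ q → h q' = h' q') ∧ h q < h' q ∧
      ρ (Function.update o π h) = π ∧ ρ (Function.update o π h') = π := by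
  classical
  by_contra hcon
  push Not at hcon
  set N := Fintype.card (ι → Fin (K + 1)) with hN
  set M := Fintype.card (κ → ι → Fin (K + 1)) with hM
  have hNpos : 0 < N := Fintype.card_pos
  have hMpos : 0 < M := Fintype.card_pos
  have h1 : ∀ (π : κ) (o : κ → ι → Fin (K + 1)),
      (Finset.univ.filter fun h => ρ (Function.update o π h) = π).card * (K + 1) ≤ N := by
    intro π o
    obtain ⟨q, hq⟩ := hcon π o
    refine box_card K q _ ?_
    intro h hh h' hh' e
    simp only [Finset.mem_filter, Finset.mem_univ, true_and] at hh hh'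
    rcases lt_trichotomy (h q) (h' q) with h2 | h2 | h2
    · exact absurd hh' (hq h h' e h2 hh)
    · funext q'
      by_cases h3 : q' = q
      · rw [h3, h2]
      · exact e q' h3
    · exact absurd hh (hq h' h (fun q' h3 => (e q' h3).symm) h2 hh')
  have h2 : ∀ π : κ, (Finset.univ.filter fun o => ρ o = π).card * (K + 1) ≤ M := by
    intro π
    have e1 : (Finset.univ.filter fun o => ρ o = π).card * N =
        ∑ o : κ → ι → Fin (K + 1),
          (Finset.univ.filter fun h => ρ (Function.update o π h) = π).card := by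
      rw [← Finset.card_sigma, hN, ← Finset.card_univ, ← Finset.card_product]
      refine Finset.card_bij' (fun z _ => ⟨Function.update z.1 π z.2, z.1 π⟩)
        (fun z _ => (Function.update z.1 π z.2, z.1 π)) ?_ ?_ ?_ ?_
      · rintro ⟨o, h⟩ hz
        simpa using hz
      · rintro ⟨o, h⟩ hz
        simpa using hz
      · rintro ⟨o, h⟩ hz
        simp
      · rintro ⟨o, h⟩ hz
        simp
    have e2 : (Finset.univ.filter fun o => ρ o = π).card * N * (K + 1) ≤ M * N := by
      rw [e1, Finset.sum_mul]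
      calc _ ≤ ∑ _o : κ → ι → Fin (K + 1), N := Finset.sum_le_sum fun o _ => h1 π o
        _ = M * N := by simp [hM]
    have e3 : (Finset.univ.filter fun o => ρ o = π).card * (K + 1) * N ≤ M * N := by
      calc _ = (Finset.univ.filter fun o => ρ o = π).card * N * (K + 1) := by ring
        _ ≤ _ := e2
    exact Nat.le_of_mul_le_mul_right e3 hNpos
  have h3 : M = ∑ π : κ, (Finset.univ.filter fun o => ρ o = π).card := by
    rw [hM, ← Finset.card_univ]
    exact Finset.card_eq_sum_card_fiberwise (f := ρ) (t := Finset.univ) (fun _ _ => by simp)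
  have h4 : M * (K + 1) ≤ K * M := by
    calc M * (K + 1) = ∑ π : κ, (Finset.univ.filter fun o => ρ o = π).card * (K + 1) := by
          rw [← Finset.sum_mul, ← h3]
      _ ≤ ∑ _π : κ, M := Finset.sum_le_sum fun π _ => h2 π
      _ = Fintype.card κ * M := by simp
      _ ≤ K * M := Nat.mul_le_mul_right _ hK
  nlinarith

theorem split_nodup {α : Type} (L : List α) (hL : L.Nodup) (a : α) (ha : a ∈ L) :
    ∃ L1 L2 : List α, L = L1 ++ a :: L2 ∧ a ∉ L1 ∧ a ∉ L2 := by
  obtain ⟨L1, L2, rfl⟩ := List.append_of_mem ha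
  refine ⟨L1, L2, rfl, ?_, ?_⟩
  · intro h
    have := List.nodup_append.mp hL
    exact this.2.2 a h a (by simp) rfl
  · intro h
    have := (List.nodup_append.mp hL).2.1
    exact (List.nodup_cons.mp this).1 h

variable {F : Type} {shift : List ℝ → F → F}

/-- one sub-block -/
def sub {ι : Type} (P : ι → Letter shift) (aux : ι → ι → ι → ι → ι → Letter shift) (p0 : ι)
    (K : ℕ) (a b q : ι) (h : ℕ) (x : ι) : List (Letter shift) :=
  List.replicate h (aux p0 q a b x) ++ List.replicate (K - h) (P p0) ++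
    List.replicate h (P q) ++ List.replicate (K - h) (aux q p0 a b x)

/-- one block -/
noncomputable def blk {ι : Type} [Fintype ι] (P : ι → Letter shift)
    (aux : ι → ι → ι → ι → ι → Letter shift) (p0 : ι)
    (K : ℕ) (a b : ι) (h : ι → Fin (K + 1)) (x : ι) : List (Letter shift) :=
  (Finset.univ : Finset ι).toList.flatMap fun q => sub P aux p0 K a b q (h q) x

theorem realize {ι : Type} [Fintype ι] (D : ι → ι → ℝ) (U : Ultrafilter F) (c : List ℝ → ℝ)
    (Φ : ι → List (Letter shift)) (hΦ : SimW D Φ 1) (p0 : ι)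
    (h : (∀ x, Rel U c (Φ p0) (Φ x)) ∨ ∀ x y, x ≠ y → ¬ Rel U c (Φ x) (Φ y)) :
    ∃ g : ι → List ℝ, (∀ x y, (g x).length = (g y).length ∧ sqd (g x) (g y) = D x y) ∧
      ((∀ x y, c (g x) = c (g y)) ∨ ∀ x y, x ≠ y → c (g x) ≠ c (g y)) := by
  have hl := pw_length U (Φ p0).length
  rcases h with h | h
  · have h1 : ∀ᶠ l in pw U (Φ p0).length, ∀ x, c (ev (Φ p0) l) = c (ev (Φ x) l) :=
      eventually_all.mpr fun x => (h x).2
    obtain ⟨l, hl1, hl2⟩ := (hl.and h1).exists
    refine ⟨fun x => ev (Φ x) l, fun x y => ?_, Or.inl fun x y => (hl2 x).symm.trans (hl2 y)⟩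
    simpa using hΦ.2 l x y (by rw [hl1, hΦ.1 x p0])
  · have h1 : ∀ᶠ l in pw U (Φ p0).length, ∀ x y, x ≠ y → c (ev (Φ x) l) ≠ c (ev (Φ y) l) := by
      refine eventually_all.mpr fun x => eventually_all.mpr fun y => ?_
      by_cases hxy : x = y
      · exact Eventually.of_forall fun l h => absurd hxy h
      · have h2 := h x y hxy
        have h3 : ¬ ∀ᶠ l in pw U (Φ x).length, c (ev (Φ x) l) = c (ev (Φ y) l) :=
          fun h3 => h2 ⟨hΦ.1 x y, h3⟩
        rw [hΦ.1 x p0] at h3
        filter_upwards [Ultrafilter.eventually_not.mpr h3] with l hl' _ using hl'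
    obtain ⟨l, hl1, hl2⟩ := (hl.and h1).exists
    refine ⟨fun x => ev (Φ x) l, fun x y => ?_, Or.inr hl2⟩
    simpa using hΦ.2 l x y (by rw [hl1, hΦ.1 x p0])

theorem core {ι : Type} [Fintype ι] [DecidableEq ι] (D : ι → ι → ℝ) (hD : ∀ x y, D x y = D y x)
    (p0 : ι) (P : ι → Letter shift) (aux : ι → ι → ι → ι → ι → Letter shift)
    (fill : ι → Letter shift) (K m : ℕ) (s t : ℝ)
    (hK : Fintype.card {π : ι × ι // π.1 ≠ π.2} ≤ K)
    (hP : Sim D P s)
    (haux : ∀ p q a b, a ≠ b → Sim D (aux p q a b) (s * D p q / D a b))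
    (hauxa : ∀ p q a b, a ≠ b → aux p q a b a = P p)
    (hauxb : ∀ p q a b, a ≠ b → aux p q a b b = P q)
    (hfill : Sim D fill t) (hm : (m : ℝ) * s = 1)
    (hdvd : ∀ δ : ℕ, 0 < δ → δ ≤ K → 2 * δ ∣ m)
    (hsum : (∑ π : {π : ι × ι // π.1 ≠ π.2}, ∑ q : ι,
      (K : ℝ) * (s * D p0 q / D π.1.1 π.1.2)) + t = 1)
    (U : Ultrafilter F)
    (hU : ∀ (x : ι) (Φ : F → Prop),
      (∀ᶠ ε in U, ∀ᶠ ε' in U, Φ (shift ((P x).1 ε) ε')) ↔ ∀ᶠ ε' in U, Φ ε')
    (c : List ℝ → ℝ) :
    ∃ g : ι → List ℝ, (∀ x y, (g x).length = (g y).length ∧ sqd (g x) (g y) = D x y) ∧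
      ((∀ x y, c (g x) = c (g y)) ∨ ∀ x y, x ≠ y → c (g x) ≠ c (g y)) := by
  classical
  by_contra hcon
  set κ := {π : ι × ι // π.1 ≠ π.2} with hκ
  let Φ : (κ → ι → Fin (K + 1)) → ι → List (Letter shift) := fun o x =>
    ((Finset.univ : Finset κ).toList.flatMap
      fun π => blk P aux p0 K π.1.1 π.1.2 (o π) x) ++ [fill x]
  have hsub : ∀ (π : κ) (q : ι) (h : Fin (K + 1)),
      SimW D (sub P aux p0 K π.1.1 π.1.2 q h) ((K : ℝ) * (s * D p0 q / D π.1.1 π.1.2)) := by
    intro π q h
    have a1 := SimW.replicate (haux p0 q π.1.1 π.1.2 π.2) h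
    have a2 := SimW.const (shift := shift) D (List.replicate (K - h) (P p0))
    have a3 := SimW.const (shift := shift) D (List.replicate h (P q))
    have a4 := SimW.replicate (haux q p0 π.1.1 π.1.2 π.2) (K - h)
    refine SimW.congr (((a1.append a2).append a3).append a4) ?_
    have : (h : ℕ) ≤ K := Nat.lt_succ_iff.mp h.2
    rw [hD q p0]
    push_cast [this]
    ring
  have hΦ : ∀ o, SimW D (Φ o) 1 := by
    intro o
    have b1 : ∀ π : κ, SimW D (blk P aux p0 K π.1.1 π.1.2 (o π))
        (∑ q : ι, (K : ℝ) * (s * D p0 q / D π.1.1 π.1.2)) := by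
      intro π
      refine SimW.congr (SimW.flatMap (fun q => sub P aux p0 K π.1.1 π.1.2 q (o π q)) _
        (fun q => hsub π q (o π q)) (Finset.univ : Finset ι).toList) ?_
      rw [Finset.sum_map_toList]
    have b2 := SimW.flatMap (fun π : κ => blk P aux p0 K π.1.1 π.1.2 (o π)) _ b1
      (Finset.univ : Finset κ).toList
    refine SimW.congr (b2.append (SimW.single hfill)) ?_
    rw [Finset.sum_map_toList, hsum]
  have hρ : ∀ o, ∃ π : κ, Rel U c (Φ o π.1.1) (Φ o π.1.2) := by
    intro o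
    by_contra h1
    push Not at h1
    exact hcon (realize D U c (Φ o) (hΦ o) p0 (Or.inr fun x y hxy => h1 ⟨(x, y), hxy⟩))
  choose ρ hρ using hρ
  obtain ⟨π, o, ho⟩ := density K hK ρ
  obtain ⟨M1, M2, hM, hM1, hM2⟩ := split_nodup (Finset.univ : Finset κ).toList
    (Finset.nodup_toList _) π (by simp)
  obtain ⟨⟨a, b⟩, hab⟩ := π
  simp only at hab
  let G1 : ι → List (Letter shift) := fun x =>
    M1.flatMap fun π => blk P aux p0 K π.1.1 π.1.2 (o π) x
  let G2 : ι → List (Letter shift) := fun x =>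
    (M2.flatMap fun π => blk P aux p0 K π.1.1 π.1.2 (o π) x) ++ [fill x]
  have hΦu : ∀ (h : ι → Fin (K + 1)) (x : ι),
      Φ (Function.update o ⟨(a, b), hab⟩ h) x = G1 x ++ (blk P aux p0 K a b h x ++ G2 x) := by
    intro h x
    simp only [Φ, G1, G2, hM, List.flatMap_append, List.flatMap_cons, Function.update_self,
      List.append_assoc]
    congr 1
    · refine List.flatMap_congr fun π hπ => ?_
      rw [Function.update_of_ne (by rintro rfl; exact hM1 hπ)]
    · congr 2
      refine List.flatMap_congr fun π hπ => ?_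
      rw [Function.update_of_ne (by rintro rfl; exact hM2 hπ)]
  have hba : ∀ h h' : ι → Fin (K + 1), blk P aux p0 K a b h a = blk P aux p0 K a b h' a := by
    intro h h'
    have : ∀ (q : ι) (i : Fin (K + 1)), sub P aux p0 K a b q i a =
        List.replicate K (P p0) ++ List.replicate K (P q) := by
      intro q i
      have hi : (i : ℕ) + (K - i) = K := by have := i.2; omega
      simp only [sub, hauxa _ _ _ _ hab, List.append_assoc]
      rw [← List.append_assoc (List.replicate _ (P p0)), ← List.replicate_add,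
        ← List.replicate_add, hi]
    simp only [blk, this]
  have hbb : ∀ h : ι → Fin (K + 1), blk P aux p0 K a b h b =
      ((Finset.univ : Finset ι).toList.flatMap fun q =>
        List.replicate (h q) q ++ List.replicate (K - h q) p0 ++ List.replicate (h q) q ++
          List.replicate (K - h q) p0).map P := by
    intro h
    simp only [blk, sub, hauxb _ _ _ _ hab, List.map_flatMap, List.map_append, List.map_replicate]
  let r : List ι → List ι → Prop := fun u v =>
    Rel U c (G1 b ++ (u.map P ++ G2 b)) (G1 b ++ (v.map P ++ G2 b))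
  have hG2 : G2 b ≠ [] := by simp [G2]
  have hdel : ∀ (u1 v1 u2 v2 : List ι) (x : ι), u1.length = v1.length → u2.length = v2.length →
      (r (u1 ++ x :: u2) (v1 ++ x :: v2) ↔ r (u1 ++ u2) (v1 ++ v2)) := by
    intro u1 v1 u2 v2 x h1 h2
    have := rel_del P U hU c x (G1 b ++ u1.map P) (G1 b ++ v1.map P) (u2.map P ++ G2 b)
      (v2.map P ++ G2 b) (by simp [h1]) (by simp [h2]) (by simp [hG2])
    simpa [r] using this
  have hmono : ∀ q : ι, r (List.replicate m p0) (List.replicate m q) := by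
    intro q
    obtain ⟨h, h', e, hlt, r1, r2⟩ := ho q
    have s1 := hρ (Function.update o ⟨(a, b), hab⟩ h)
    have s2 := hρ (Function.update o ⟨(a, b), hab⟩ h')
    rw [r1] at s1
    rw [r2] at s2
    simp only [hΦu] at s1 s2
    rw [hba h' h] at s2
    have s3 := s1.symm.trans s2
    rw [hbb, hbb] at s3
    obtain ⟨L1, L2, hL, hL1, hL2⟩ := split_nodup (Finset.univ : Finset ι).toList
      (Finset.nodup_toList _) q (by simp)
    have hlt' : (h q : ℕ) < h' q := hlt
    have hK' : (h' q : ℕ) ≤ K := Nat.lt_succ_iff.mp (h' q).2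
    obtain ⟨δ, hδ⟩ : ∃ δ, (h' q : ℕ) = h q + δ := ⟨h' q - h q, by omega⟩
    obtain ⟨k, hk⟩ : ∃ k, K - (h' q : ℕ) = k := ⟨_, rfl⟩
    have hk2 : K - (h q : ℕ) = δ + k := by omega
    have t1 : r (List.replicate (2 * δ) p0) (List.replicate (2 * δ) q) := by
      refine two_runs r hdel p0 q
        (L1.flatMap fun q => List.replicate (h q) q ++ List.replicate (K - h q) p0 ++
          List.replicate (h q) q ++ List.replicate (K - h q) p0)
        (L2.flatMap fun q => List.replicate (h q) q ++ List.replicate (K - h q) p0 ++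
          List.replicate (h q) q ++ List.replicate (K - h q) p0) (h q) δ k ?_
      have f1 : (L1.flatMap fun q => List.replicate (h' q) q ++ List.replicate (K - h' q) p0 ++
          List.replicate (h' q) q ++ List.replicate (K - h' q) p0) =
          (L1.flatMap fun q => List.replicate (h q) q ++ List.replicate (K - h q) p0 ++
          List.replicate (h q) q ++ List.replicate (K - h q) p0) := by
        refine List.flatMap_congr fun q' hq' => ?_
        rw [e q' (by rintro rfl; exact hL1 hq')]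
      have f2 : (L2.flatMap fun q => List.replicate (h' q) q ++ List.replicate (K - h' q) p0 ++
          List.replicate (h' q) q ++ List.replicate (K - h' q) p0) =
          (L2.flatMap fun q => List.replicate (h q) q ++ List.replicate (K - h q) p0 ++
          List.replicate (h q) q ++ List.replicate (K - h q) p0) := by
        refine List.flatMap_congr fun q' hq' => ?_
        rw [e q' (by rintro rfl; exact hL2 hq')]
      rw [hL, List.flatMap_append, List.flatMap_append, List.flatMap_cons, List.flatMap_cons,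
        f1, f2, hk, hk2, hδ] at s3
      exact s3
    obtain ⟨T, hT⟩ := hdvd δ (by omega) (by omega)
    rw [hT]
    exact chain_runs r (fun u => Rel.refl _ _ _) (fun u v w h1 h2 => h1.trans h2) hdel p0 q _ t1 T
  refine hcon (realize D U c (fun x => G1 b ++ (List.replicate m (P x) ++ G2 b)) ?_ p0
    (Or.inl fun x => ?_))
  · refine SimW.congr ((SimW.const D (G1 b)).append
      ((SimW.replicate hP m).append (SimW.const D (G2 b)))) ?_
    rw [hm]; ring
  · simpa [r] using hmono x

end Pool.Agent.MP_0f46a6_co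

end

-- part MP_0f46a6_co.Geom
section

/-!
Frames from Euclidean copies, and the final assembly.
-/

set_option autoImplicit false

namespace Pool.Agent.MP_0f46a6_co

open Filter

/-- a scaled copy together with auxiliary similar copies glued on each pair and a filler copy -/
structure Frame (ι : Type) (D : ι → ι → ℝ) (s t : ℝ) where
  pt : ι → List ℝ
  aux : ι → ι → ι → ι → ι → List ℝ
  fill : ι → List ℝ
  hpt : ∀ x y, (pt x).length = (pt y).length ∧ sqd (pt x) (pt y) = s * D x y
  haux : ∀ p q a b, a ≠ b → ∀ x y, (aux p q a b x).length = (aux p q a b y).length ∧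
    sqd (aux p q a b x) (aux p q a b y) = (s * D p q / D a b) * D x y
  hauxa : ∀ p q a b, a ≠ b → aux p q a b a = pt p
  hauxb : ∀ p q a b, a ≠ b → aux p q a b b = pt q
  hfill : ∀ x y, (fill x).length = (fill y).length ∧ sqd (fill x) (fill y) = t * D x y

theorem sqd_shift (y u v : List ℝ) : sqd (y ++ u) (y ++ v) = sqd u v := by
  rw [sqd_append _ _ _ _ rfl, sqd_self, zero_add]

/-- translate a frame -/
def Frame.shift {ι : Type} {D : ι → ι → ℝ} {s t : ℝ} (y : List ℝ) (ε : Frame ι D s t) :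
    Frame ι D s t where
  pt x := y ++ ε.pt x
  aux p q a b x := y ++ ε.aux p q a b x
  fill x := y ++ ε.fill x
  hpt x z := by simpa [sqd_shift] using ε.hpt x z
  haux p q a b hab x z := by simpa [sqd_shift] using ε.haux p q a b hab x z
  hauxa p q a b hab := by rw [ε.hauxa p q a b hab]
  hauxb p q a b hab := by rw [ε.hauxb p q a b hab]
  hfill x z := by simpa [sqd_shift] using ε.hfill x z

theorem Frame.shift_shift {ι : Type} {D : ι → ι → ℝ} {s t : ℝ} (y y' : List ℝ)
    (ε : Frame ι D s t) : Frame.shift y (Frame.shift y' ε) = Frame.shift (y ++ y') ε := by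
  simp [Frame.shift]

theorem sqd_ofFn : ∀ (n : ℕ) (f g : Fin n → ℝ),
    sqd (List.ofFn f) (List.ofFn g) = ∑ i, (f i - g i) ^ 2
  | 0, f, g => by simp [sqd]
  | n + 1, f, g => by
      rw [List.ofFn_succ, List.ofFn_succ, sqd, sqd_ofFn n, Fin.sum_univ_succ]

/-- coordinates of a vector -/
def toL {n : ℕ} (v : EuclideanSpace ℝ (Fin n)) : List ℝ := List.ofFn fun i => v i

theorem toL_length {n : ℕ} (v : EuclideanSpace ℝ (Fin n)) : (toL v).length = n := by
  simp [toL]

theorem sqd_toL {n : ℕ} (v w : EuclideanSpace ℝ (Fin n)) :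
    sqd (toL v) (toL w) = ‖v - w‖ ^ 2 := by
  rw [toL, toL, sqd_ofFn, EuclideanSpace.norm_sq_eq]
  simp

/-- vector with the given coordinates -/
def toV (n : ℕ) (l : List ℝ) : EuclideanSpace ℝ (Fin n) :=
  WithLp.toLp 2 fun i => l.getD i 0

theorem toL_toV (n : ℕ) (l : List ℝ) (h : l.length = n) : toL (toV n l) = l := by
  subst h
  refine List.ext_getElem (by simp [toL]) fun i h1 h2 => ?_
  simp [toL, toV, List.getD_eq_getElem?_getD, List.getElem?_eq_getElem h2]

theorem sqd_two {n d : ℕ} (v w : EuclideanSpace ℝ (Fin n)) (v' w' : EuclideanSpace ℝ (Fin d)) :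
    sqd (toL v ++ toL v') (toL w ++ toL w') = ‖v - w‖ ^ 2 + ‖v' - w'‖ ^ 2 := by
  rw [sqd_append _ _ _ _ (by simp [toL_length]), sqd_toL, sqd_toL]

theorem glue_dist {E W : Type} [NormedAddCommGroup E] [InnerProductSpace ℝ E]
    [NormedAddCommGroup W] [InnerProductSpace ℝ W] (P Q : W) (a b x y : E) (hab : a ≠ b) :
    ‖(P + (inner ℝ (x - a) (b - a) / ‖b - a‖ ^ 2) • (Q - P)) -
        (P + (inner ℝ (y - a) (b - a) / ‖b - a‖ ^ 2) • (Q - P))‖ ^ 2 +
      ‖(‖Q - P‖ / ‖b - a‖) • (x - a - (inner ℝ (x - a) (b - a) / ‖b - a‖ ^ 2) • (b - a)) -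
        (‖Q - P‖ / ‖b - a‖) • (y - a - (inner ℝ (y - a) (b - a) / ‖b - a‖ ^ 2) • (b - a))‖ ^ 2 =
      ‖Q - P‖ ^ 2 / ‖b - a‖ ^ 2 * ‖x - y‖ ^ 2 := by
  have hn : ‖b - a‖ ≠ 0 := by
    rw [norm_ne_zero_iff, sub_ne_zero]; exact hab.symm
  set τ : ℝ := inner ℝ (x - y) (b - a) / ‖b - a‖ ^ 2 with hτ
  have hτ' : inner ℝ (x - a) (b - a) / ‖b - a‖ ^ 2 - inner ℝ (y - a) (b - a) / ‖b - a‖ ^ 2 = τ := by
    rw [hτ, ← sub_div, ← inner_sub_left]
    congr 2
    abel
  have e1 : (P + (inner ℝ (x - a) (b - a) / ‖b - a‖ ^ 2) • (Q - P)) -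
      (P + (inner ℝ (y - a) (b - a) / ‖b - a‖ ^ 2) • (Q - P)) = τ • (Q - P) := by
    rw [← hτ', sub_smul]; abel
  have e2 : (‖Q - P‖ / ‖b - a‖) • (x - a - (inner ℝ (x - a) (b - a) / ‖b - a‖ ^ 2) • (b - a)) -
      (‖Q - P‖ / ‖b - a‖) • (y - a - (inner ℝ (y - a) (b - a) / ‖b - a‖ ^ 2) • (b - a)) =
      (‖Q - P‖ / ‖b - a‖) • ((x - y) - τ • (b - a)) := by
    rw [← smul_sub, ← hτ', sub_smul]
    congr 1
    abel
  rw [e1, e2, norm_smul, norm_smul, mul_pow, mul_pow, norm_sub_sq_real (x - y), norm_smul,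
    inner_smul_right, mul_pow]
  simp only [Real.norm_eq_abs, sq_abs]
  have e3 : inner ℝ (x - y) (b - a) = τ * ‖b - a‖ ^ 2 := by
    rw [hτ]; field_simp
  rw [e3]
  field_simp
  ring

theorem exists_frame {d n : ℕ} {ι : Type} (e : ι → EuclideanSpace ℝ (Fin d))
    (he : Function.Injective e) (g : ι → EuclideanSpace ℝ (Fin n))
    (hg : ∀ x y, ‖g x - g y‖ = ‖e x - e y‖) (s t : ℝ) (hs : 0 ≤ s) (ht : 0 ≤ t) :
    ∃ ε : Frame ι (fun x y => ‖e x - e y‖ ^ 2) s t,
      ∀ x, ε.pt x = toL (√s • g x) ++ toL (0 : EuclideanSpace ℝ (Fin d)) := by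
  have hP : ∀ x y, ‖√s • g x - √s • g y‖ ^ 2 = s * ‖e x - e y‖ ^ 2 := by
    intro x y
    rw [← smul_sub, norm_smul, mul_pow, hg, Real.norm_eq_abs, sq_abs, Real.sq_sqrt hs]
  refine ⟨{
    pt := fun x => toL (√s • g x) ++ toL (0 : EuclideanSpace ℝ (Fin d))
    aux := fun p q a b x =>
      toL (√s • g p + (inner ℝ (e x - e a) (e b - e a) / ‖e b - e a‖ ^ 2) •
        (√s • g q - √s • g p)) ++
      toL ((‖√s • g q - √s • g p‖ / ‖e b - e a‖) •
        (e x - e a - (inner ℝ (e x - e a) (e b - e a) / ‖e b - e a‖ ^ 2) • (e b - e a)))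
    fill := fun x => toL (√t • e x)
    hpt := ?_, haux := ?_, hauxa := ?_, hauxb := ?_, hfill := ?_ }, fun _ => rfl⟩
  · intro x y
    refine ⟨by simp [toL_length], ?_⟩
    rw [sqd_two, hP]; simp
  · intro p q a b hab x y
    refine ⟨by simp [toL_length], ?_⟩
    rw [sqd_two, glue_dist _ _ _ _ _ _ (he.ne hab), hP, norm_sub_rev (e q), norm_sub_rev (e b)]
  · intro p q a b hab
    simp
  · intro p q a b hab
    have hn : ‖e b - e a‖ ≠ 0 := by
      rw [norm_ne_zero_iff, sub_ne_zero]; exact (he.ne hab).symm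
    have h1 : inner ℝ (e b - e a) (e b - e a) / ‖e b - e a‖ ^ 2 = 1 := by
      rw [real_inner_self_eq_norm_sq]; field_simp
    rw [h1]
    simp
  · intro x y
    refine ⟨by simp [toL_length], ?_⟩
    rw [sqd_toL, ← smul_sub, norm_smul, mul_pow, Real.norm_eq_abs, sq_abs, Real.sq_sqrt ht]

theorem main (d : ℕ) (X : Finset (EuclideanSpace ℝ (Fin d)))
    (hX : ∀ r : ℕ, ∃ n : ℕ, ∀ c : EuclideanSpace ℝ (Fin n) → Fin r,
        ∃ g : EuclideanSpace ℝ (Fin d) → EuclideanSpace ℝ (Fin n),
          (∀ x ∈ X, ∀ y ∈ X, dist (g x) (g y) = dist x y) ∧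
          ∃ k : Fin r, ∀ x ∈ X, c (g x) = k) :
    ∃ n : ℕ, ∀ c : EuclideanSpace ℝ (Fin n) → ℝ,
        ∃ g : EuclideanSpace ℝ (Fin d) → EuclideanSpace ℝ (Fin n),
          (∀ x ∈ X, ∀ y ∈ X, dist (g x) (g y) = dist x y) ∧
          ((∃ k : ℝ, ∀ x ∈ X, c (g x) = k) ∨
            Set.InjOn (fun x => c (g x)) (↑X : Set (EuclideanSpace ℝ (Fin d)))) := by
  classical
  rcases X.eq_empty_or_nonempty with rfl | ⟨x0, hx0⟩
  · exact ⟨0, fun c => ⟨fun _ => 0, by simp, Or.inl ⟨0, by simp⟩⟩⟩
  by_contra hcon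
  simp only [not_exists, not_forall] at hcon
  choose cn hcn using hcon
  let ι : Type := X
  let p0 : ι := ⟨x0, hx0⟩
  let e : ι → EuclideanSpace ℝ (Fin d) := fun x => x.1
  have he : Function.Injective e := Subtype.val_injective
  let D : ι → ι → ℝ := fun x y => ‖e x - e y‖ ^ 2
  let K : ℕ := Fintype.card {π : ι × ι // π.1 ≠ π.2}
  let C : ℝ := ∑ π : {π : ι × ι // π.1 ≠ π.2}, ∑ q : ι, (K : ℝ) * (D p0 q / D π.1.1 π.1.2)
  obtain ⟨T, hT⟩ := exists_nat_gt (max C 0)
  have hT0 : 0 < T := by exact_mod_cast (le_max_right C 0).trans_lt hT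
  let m : ℕ := 2 * K.factorial * T
  have hmT : T ≤ m := Nat.le_mul_of_pos_left _ (by positivity)
  have hm0 : (0 : ℝ) < m := by exact_mod_cast lt_of_lt_of_le hT0 hmT
  have hmC : C ≤ m := ((le_max_left C 0).trans hT.le).trans (by exact_mod_cast hmT)
  let s : ℝ := 1 / m
  let t : ℝ := 1 - C / m
  have hs : 0 ≤ s := by positivity
  have ht : 0 ≤ t := by
    have : C / m ≤ 1 := (div_le_one hm0).mpr hmC
    simp only [t]; linarith
  let F := Frame ι D s t
  obtain ⟨U, hU⟩ := exists_ultra (F := F) (ι := ι) (fun x ε => ε.pt x) Frame.shift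
    (fun _ _ _ => rfl) Frame.shift_shift (by
      intro r f
      obtain ⟨n, hn⟩ := hX r
      obtain ⟨g, hg, k, hk⟩ := hn
        (fun v => f (toL (√s • v) ++ toL (0 : EuclideanSpace ℝ (Fin d))))
      obtain ⟨ε, hε⟩ := exists_frame e he (fun x => g x.1) (fun x y => by
        simpa [dist_eq_norm] using hg x.1 x.2 y.1 y.2) s t hs ht
      exact ⟨ε, k, fun x => by rw [hε]; exact hk x.1 x.2⟩)
  let P : ι → Letter (Frame.shift : List ℝ → F → F) := fun x => ⟨fun ε => ε.pt x, fun _ _ => rfl⟩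
  let aux : ι → ι → ι → ι → ι → Letter (Frame.shift : List ℝ → F → F) :=
    fun p q a b x => ⟨fun ε => ε.aux p q a b x, fun _ _ => rfl⟩
  let fill : ι → Letter (Frame.shift : List ℝ → F → F) :=
    fun x => ⟨fun ε => ε.fill x, fun _ _ => rfl⟩
  obtain ⟨g, hg1, hg2⟩ := core D (fun x y => by simp only [D]; rw [norm_sub_rev]) p0 P aux fill
    K m s t le_rfl (fun ε => ε.hpt) (fun p q a b hab ε => ε.haux p q a b hab)
    (fun p q a b hab => Subtype.ext (funext fun ε => ε.hauxa p q a b hab))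
    (fun p q a b hab => Subtype.ext (funext fun ε => ε.hauxb p q a b hab))
    (fun ε => ε.hfill) (by simp only [s]; field_simp)
    (fun δ h1 h2 => Dvd.dvd.mul_right (Nat.mul_dvd_mul_left 2 (Nat.dvd_factorial h1 h2)) T)
    (by
      have : (∑ π : {π : ι × ι // π.1 ≠ π.2}, ∑ q : ι,
          (K : ℝ) * (s * D p0 q / D π.1.1 π.1.2)) = C / m := by
        simp only [C, s, Finset.sum_div]
        refine Finset.sum_congr rfl fun π _ => Finset.sum_congr rfl fun q _ => ?_
        ring
      rw [this]; simp only [t]; ring)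
    U hU (fun l => cn l.length (toV l.length l))
  set n := (g p0).length with hn
  have hc : ∀ l : List ℝ, l.length = n → cn l.length (toV l.length l) = cn n (toV n l) := by
    intro l hl; rw [hl]
  have hlen : ∀ x, (g x).length = n := fun x => (hg1 x p0).1
  refine hcn n (fun z => if h : z ∈ X then toV n (g ⟨z, h⟩) else 0) ⟨?_, ?_⟩
  · intro x hx y hy
    simp only [hx, hy, dif_pos]
    have h1 := sqd_toL (toV n (g ⟨x, hx⟩)) (toV n (g ⟨y, hy⟩))
    rw [toL_toV _ _ (hlen _), toL_toV _ _ (hlen _), (hg1 _ _).2] at h1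
    rw [dist_eq_norm, dist_eq_norm]
    exact ((sq_eq_sq₀ (norm_nonneg _) (norm_nonneg _)).mp h1).symm
  · simp only [hc _ (hlen _)] at hg2
    rcases hg2 with h | h
    · refine Or.inl ⟨cn n (toV n (g p0)), fun x hx => ?_⟩
      simp only [hx, dif_pos]
      exact h _ _
    · refine Or.inr fun x hx y hy hxy => ?_
      have hx' : x ∈ X := hx
      have hy' : y ∈ X := hy
      simp only [hx', hy', dif_pos] at hxy
      by_contra hne
      exact h ⟨x, hx'⟩ ⟨y, hy'⟩ (fun h' => hne (congrArg Subtype.val h')) hxy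

end Pool.Agent.MP_0f46a6_co

end
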