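import Mathlib
import Pool.Agent.MP_0f46a6_co.Mg.Geom
import Pool.Agent.MP_0f46a6_co.H98.Defs

/-!
Congruent finite sets are related by a global isometry; arbitrary colour sets; all large dimensions.
-/

set_option autoImplicit false

namespace Pool.Agent.MP_0f46a6_co.H98

theorem exists_swap {V : Type} [NormedAddCommGroup V] [InnerProductSpace ℝ V]
    [FiniteDimensional ℝ V] (p q : V) :
    ∃ ρ : V ≃ᵢ V, ρ p = q ∧ ∀ x, dist x p = dist x q → ρ x = x := by
  let R : V ≃ₗᵢ[ℝ] V := ((ℝ ∙ (p - q))ᗮ).reflection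
  let m : V := (1 / 2 : ℝ) • (p + q)
  refine ⟨((IsometryEquiv.addRight (-m)).trans R.toIsometryEquiv).trans
    (IsometryEquiv.addRight m), ?_, ?_⟩
  · have h1 : R (p + -m) = q + -m := by
      have e : p - q = (p + -m) - (q + -m) := by abel
      have hn : ‖p + -m‖ = ‖q + -m‖ := by
        have a1 : p + -m = (1 / 2 : ℝ) • (p - q) := by
          simp only [m]; module
        have a2 : q + -m = (1 / 2 : ℝ) • (q - p) := by
          simp only [m]; module
        rw [a1, a2, norm_smul, norm_smul, norm_sub_rev]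
      have := Submodule.reflection_sub hn
      simp only [R]
      rw [e]
      exact this
    change R (p + -m) + m = q
    rw [h1]; abel
  · intro x hx
    have h1 : R (x + -m) = x + -m := by
      simp only [R]
      apply Submodule.reflection_mem_subspace_eq_self
      rw [Submodule.mem_orthogonal_singleton_iff_inner_right]
      have a1 : x + -m = (1 / 2 : ℝ) • ((x - p) + (x - q)) := by
        simp only [m]; module
      have a2 : p - q = (x - q) - (x - p) := by abel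
      rw [dist_eq_norm, dist_eq_norm] at hx
      rw [a1, a2]
      generalize x - p = u at hx ⊢
      generalize x - q = w at hx ⊢
      rw [inner_smul_right, inner_add_right, inner_sub_left, inner_sub_left,
        real_inner_self_eq_norm_sq, real_inner_self_eq_norm_sq, real_inner_comm u w, hx]
      ring
    change R (x + -m) + m = x
    rw [h1]; abel

theorem exists_isometryEquiv {V ι : Type} [NormedAddCommGroup V] [InnerProductSpace ℝ V]
    [FiniteDimensional ℝ V] (f g : ι → V) (s : Finset ι)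
    (h : ∀ x ∈ s, ∀ y ∈ s, dist (g x) (g y) = dist (f x) (f y)) :
    ∃ φ : V ≃ᵢ V, ∀ x ∈ s, φ (f x) = g x := by
  classical
  induction s using Finset.induction_on with
  | empty => exact ⟨IsometryEquiv.refl V, by simp⟩
  | insert a s ha ih =>
    obtain ⟨φ, hφ⟩ := ih fun x hx y hy =>
      h x (Finset.mem_insert_of_mem hx) y (Finset.mem_insert_of_mem hy)
    obtain ⟨ρ, h1, h2⟩ := exists_swap (φ (f a)) (g a)
    refine ⟨φ.trans ρ, fun x hx => ?_⟩
    rcases Finset.mem_insert.mp hx with rfl | hx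
    · exact h1
    · change ρ (φ (f x)) = g x
      rw [hφ x hx]
      apply h2
      rw [h x (Finset.mem_insert_of_mem hx) a (Finset.mem_insert_self a s), ← hφ x hx, φ.dist_eq]

theorem dist_incl {k n : ℕ} (hkn : k ≤ n) (x y : EuclideanSpace ℝ (Fin k)) :
    dist (incl k n x) (incl k n y) = dist x y := by
  obtain ⟨j, rfl⟩ := Nat.exists_eq_add_of_le hkn
  rw [EuclideanSpace.dist_eq, EuclideanSpace.dist_eq, Fin.sum_univ_add]
  congr 1
  have h2 : ∑ i : Fin j, dist ((incl k (k + j) x) (Fin.natAdd k i))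
      ((incl k (k + j) y) (Fin.natAdd k i)) ^ 2 = 0 := by
    refine Finset.sum_eq_zero fun i _ => ?_
    simp [incl]
  rw [h2, add_zero]
  refine Finset.sum_congr rfl fun i _ => ?_
  simp [incl]

theorem exists_inj (n : ℕ) : ∃ e : EuclideanSpace ℝ (Fin n) → ℝ, Function.Injective e := by
  have h : Cardinal.mk (EuclideanSpace ℝ (Fin n)) ≤ Cardinal.mk ℝ := by
    rw [Cardinal.mk_congr (WithLp.equiv 2 (Fin n → ℝ))]
    rw [← Cardinal.power_def, Cardinal.mk_real]
    exact Cardinal.pow_le Cardinal.aleph0_le_continuum (by simp)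
  obtain ⟨e⟩ := (Cardinal.le_def _ _).mp h
  exact ⟨e, e.injective⟩

theorem strong.{u} (k : ℕ) (X : Finset (EuclideanSpace ℝ (Fin k)))
    (hX : ∀ r : ℕ, 1 ≤ r → ∃ n : ℕ, ∀ c : EuclideanSpace ℝ (Fin n) → Fin r,
      ∃ g : EuclideanSpace ℝ (Fin k) → EuclideanSpace ℝ (Fin n),
        (∀ x ∈ X, ∀ y ∈ X, dist (g x) (g y) = dist x y) ∧
        ∀ x ∈ X, ∀ y ∈ X, c (g x) = c (g y)) :
    ∃ n₀ : ℕ, k ≤ n₀ ∧ ∀ n : ℕ, n₀ ≤ n → ∀ (C : Type u) (c : EuclideanSpace ℝ (Fin n) → C),
      ∃ φ : EuclideanSpace ℝ (Fin n) ≃ᵢ EuclideanSpace ℝ (Fin n),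
        (∀ y ∈ φ '' (incl k n '' (X : Set (EuclideanSpace ℝ (Fin k)))),
          ∀ z ∈ φ '' (incl k n '' (X : Set (EuclideanSpace ℝ (Fin k)))), c y = c z) ∨
        Set.InjOn c (φ '' (incl k n '' (X : Set (EuclideanSpace ℝ (Fin k))))) := by
  classical
  obtain ⟨N, hN⟩ := Pool.Agent.MP_0f46a6_co.main k X (by
    intro r
    rcases Nat.eq_zero_or_pos r with rfl | hr
    · exact ⟨0, fun c => (c 0).elim0⟩
    obtain ⟨n, hn⟩ := hX r hr
    refine ⟨n, fun c => ?_⟩
    obtain ⟨g, hg1, hg2⟩ := hn c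
    refine ⟨g, hg1, ?_⟩
    rcases X.eq_empty_or_nonempty with rfl | ⟨x0, hx0⟩
    · exact ⟨⟨0, hr⟩, by simp⟩
    · exact ⟨c (g x0), fun x hx => hg2 x hx x0 hx0⟩)
  refine ⟨max k N, le_max_left _ _, fun n hn C c => ?_⟩
  have hk : k ≤ n := (le_max_left _ _).trans hn
  have hNn : N ≤ n := (le_max_right _ _).trans hn
  obtain ⟨e, he⟩ := exists_inj n
  let c' : EuclideanSpace ℝ (Fin n) → ℝ := fun v => e (Function.invFun c (c v))
  have hc' : ∀ v w, c' v = c' w ↔ c v = c w := by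
    intro v w
    constructor
    · intro h
      have h1 := he h
      rw [← Function.invFun_eq (f := c) ⟨v, rfl⟩, h1, Function.invFun_eq (f := c) ⟨w, rfl⟩]
    · intro h
      simp only [c', h]
  obtain ⟨g, hg1, hg2⟩ := hN fun v => c' (incl N n v)
  obtain ⟨φ, hφ⟩ := exists_isometryEquiv (incl k n) (fun x => incl N n (g x)) X (by
    intro x hx y hy
    rw [dist_incl hNn, dist_incl hk, hg1 x hx y hy])
  refine ⟨φ, ?_⟩
  rcases hg2 with ⟨t, ht⟩ | hinj
  · left
    rintro _ ⟨_, ⟨x, hx, rfl⟩, rfl⟩ _ ⟨_, ⟨y, hy, rfl⟩, rfl⟩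
    rw [hφ x hx, hφ y hy, ← hc', ht x hx, ht y hy]
  · right
    rintro _ ⟨_, ⟨x, hx, rfl⟩, rfl⟩ _ ⟨_, ⟨y, hy, rfl⟩, rfl⟩ hxy
    rw [hφ x hx, hφ y hy, ← hc'] at hxy
    rw [hinj hx hy hxy]

end Pool.Agent.MP_0f46a6_co.H98
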